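import Pool.Agent.X119.Cong

/-!
# The conjectured value modulo `p ^ 2` is false for `p = 37` and `p = 61`
-/

set_option autoImplicit false

namespace Pool.Agent.Results.MP_8312d7_nt.FailsAt37

open Finset Pool.Agent.X119.Cong

/-- `S_1(p)` -/
def S1 (p : ℕ) : ℚ := ∑ k ∈ range p, binom (-1 / 4) k * binom (-1 / 2) k / 4 ^ k

/-- `S_2(p)` -/
def S2 (p : ℕ) : ℚ := ∑ k ∈ range p, binom (-1 / 2) k * binom (-1 / 6) k * 2 ^ k

/-- the value for `p ≡ 1 (mod 12)` -/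
def R1 (p : ℕ) (x : ℤ) : ℚ := (-1 : ℚ) ^ (((p : ℤ) - 1) / 4 + (x + 1) / 2) * (2 * x - p / (2 * x))

theorem fail37 (x : ℤ) (hx : x = 1 ∨ x = -1) : ¬ Cong 37 2 (S1 37) (R1 37 x) := by
  rcases hx with rfl | rfl
  · exact not_cong' (z := 2 - 37 / 2) (by rw [R1]; norm_num) (by decide +kernel)
  · exact not_cong' (z := 2 - 37 / 2) (by rw [R1]; norm_num) (by decide +kernel)

theorem fail61 (x : ℤ) (hx : x = 5 ∨ x = -5) : ¬ Cong 61 2 (S1 61) (R1 61 x) := by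
  rcases hx with rfl | rfl
  · exact not_cong' (z := 10 - 61 / 10) (by rw [R1]; norm_num) (by decide +kernel)
  · exact not_cong' (z := 10 - 61 / 10) (by rw [R1]; norm_num) (by decide +kernel)

/-- The congruence `S_1(p) ≡ (-1) ^ ((p - 1) / 4 + (x + 1) / 2) (2 x - p / (2 x)) (mod p ^ 2)` fails for `p = 37` and
`p = 61` (for both signs of `x`), so that the assertion of Q1 is false. -/
theorem result :
    ((∀ x : ℤ, x = 1 ∨ x = -1 → ¬ Cong 37 2 (S1 37) (R1 37 x)) ∧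
      (∀ x : ℤ, x = 5 ∨ x = -5 → ¬ Cong 61 2 (S1 61) (R1 61 x))) ∧
    ¬ ∀ p : ℕ, p.Prime → p % 4 = 1 →
      Cong p 2 (S1 p) (jacobiSym p 3 * S2 p) ∧
      (p % 12 = 1 → ∀ x y : ℤ, (p : ℤ) = x ^ 2 + y ^ 2 → Odd x → Cong p 2 (S1 p) (R1 p x)) ∧
      (p % 12 = 5 → ∃ x y : ℤ, (p : ℤ) = x ^ 2 + y ^ 2 ∧ Odd x ∧ Cong p 2 (S1 p) (2 * y - p / (2 * y))) :=
  ⟨⟨fail37, fail61⟩, fun h => fail37 1 (Or.inl rfl)
    ((h 37 (by norm_num) (by norm_num)).2.1 (by norm_num) 1 6 (by norm_num) (by decide))⟩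

end Pool.Agent.Results.MP_8312d7_nt.FailsAt37
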